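import Pool.Agent.Mg.F9f8ce8p.Gb36528

namespace Pool.Agent.Results.MP_9f8ce8_lc.BlackBox

open Pool.Agent.MP_9f8ce8_lc Filter

/-- Tolerance to classification noise cannot be boosted in a black-box way: for every rate η and
every countable family of query-bounded boosters with target rates above η, there are a concept
table F and a learner A that weakly succeeds at rate η for every distribution, such that each
booster, given oracle access to A and F, has exponentially small advantage infinitely often. -/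
theorem result (η : ℝ) (h0 : 0 ≤ η) (h1 : η < 1 / 2) :
    ∃ a b : ℕ, 0 < b ∧
      ∀ (η' : ℕ → ℝ) (M r : ℕ → ℕ → ℕ)
        (B : (i n : ℕ) → Sample n (M i n) → X n → (Fin (r i n) → Bool) →
          DT (Query fun n => a * (n + 1) ^ 3)),
        (∀ i, η < η' i ∧ η' i ≤ 1 / 2) →
        (∀ i, ∀ᶠ n in atTop, M i n ≤ 2 ^ (n / 4) ∧
          ∀ S x ω, (B i n S x ω).depth ≤ 2 ^ (n / 4)) →
        ∃ (F : (n : ℕ) → Fin (2 ^ n) → X n → Bool)
          (A : (n : ℕ) → Sample n (a * (n + 1) ^ 3) → X n → Bool × Bool → Bool),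
          (∀ (n : ℕ) (k : Fin (2 ^ n)) (D : X n → ℝ), (∀ x, 0 ≤ D x) → ∑ x, D x = 1 →
            err η (F n k) D (A n) < 1 / 2 - 1 / ((b : ℝ) * ((n : ℝ) + 1) ^ 6)) ∧
          ∀ i, ∃ᶠ n in atTop, ∃ k : Fin (2 ^ n),
            1 / 2 - 1 / (2 : ℝ) ^ (n / 4) ≤ err (η' i) (F n k) (fun _ => 1 / 2 ^ n)
              (fun S x ω => (B i n S x ω).eval (oracle A F)) := by
  obtain ⟨a, b, ha, hb, hε, hA⟩ := exists_size h0 h1
  refine ⟨a, b, hb, fun η' M r B hη' hB => ?_⟩
  obtain ⟨F, hF⟩ := diagonal h0 h1 ha hε η' M r B hη' hB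
  refine ⟨F, learnAll η ha F, hA F, fun i => ?_⟩
  rw [frequently_atTop]
  intro N
  obtain ⟨n, hn, k, hk⟩ := hF (Nat.pair i N)
  have e : (Nat.unpair (Nat.pair i N)).1 = i := by rw [Nat.unpair_pair]
  refine ⟨n, le_trans (Nat.right_le_pair i N) hn, k, ?_⟩
  generalize (Nat.unpair (Nat.pair i N)).1 = j at hk e
  subst e
  exact hk

end Pool.Agent.Results.MP_9f8ce8_lc.BlackBox
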