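import Pool.Agent.Mg.F9f8ce8p.G82ebec

namespace Pool.Agent.Results.MP_9f8ce8_lc.Capacity

open Pool.Agent.MP_9f8ce8_lc Pool.Agent.MP_9f8ce8_lc.Cap Filter

/-- The price, in examples, of raising the noise rate from η to η' is exactly the ratio of the
capacities of the two binary symmetric channels. -/
theorem result (η η' : ℝ) (h0 : 0 ≤ η) (h1 : η < η') (h2 : η' < 1 / 2) (R : ℝ)
    (hR : R = (Real.log 2 - Real.binEntropy η) / (Real.log 2 - Real.binEntropy η')) :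
    (∀ (n : ℕ) (P : Set ((X n → Bool) × (X n → ℝ))) (m M : ℕ) (γ : ℝ), 0 ≤ γ →
      Weak η P m γ → Weak η' P M ((1 - R * m / (M + 1)) *
        ((Real.log 2 - Real.binEntropy (1 / 2 - (1 - 2 * η) * γ)) /
          (2 * (Real.log 2 - Real.binEntropy η))))) ∧
    ∀ K : ℝ, K < R → ∃ a b γ : ℝ, 0 < b ∧ 0 < γ ∧ ∀ᶠ n in atTop,
      ∃ (C : Set (X n → Bool)) (m : ℕ), (m : ℝ) ≤ a * n ∧ Weak η (C ×ˢ Set.univ) m γ ∧
        ∀ M : ℕ, (M : ℝ) ≤ K * m →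
          ¬ Weak η' (C ×ˢ {fun _ => 1 / 2 ^ n}) M (Real.exp (-b * n)) := by
  subst hR
  exact ⟨fun n P m M γ hγ hW => boost h0 h1 h2 P m M hγ hW, fun K hK => sharp h0 h1 h2 hK⟩

end Pool.Agent.Results.MP_9f8ce8_lc.Capacity
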