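import Pool.Agent.MP_9f8ce8_lc.ParMain

namespace Pool.Agent.Results.MP_9f8ce8_lc.ParityBoost

open Pool.Agent.MP_9f8ce8_lc.Par

/-- Noise tolerance for parity functions can be raised from any constant rate η > 0 to any
constant rate p < 1/2, at the price of passing from all distributions to the uniform
distributions on linear subspaces. The booster calls the given learner once, in dimension
(n+1)^K, and loses only a constant factor in the advantage. -/
theorem result (η p : ℝ) (hη : 0 < η) (hη' : η < 1 / 2) (hp : 0 ≤ p) (hp' : p < 1 / 2) :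
    ∃ (K r : ℕ) (G : Gadget K r), 0 < K ∧ IsProb G.w ∧
      ∀ (n m : ℕ) (Ω : Type) [Fintype Ω] (u : Ω → ℝ)
        (A : (Fin m → Vec (Idx K n) × ZMod 2) → Vec (Idx K n) → Ω → ZMod 2) (γ : ℝ)
        (s : Vec (Fin n)), IsProb u →
        (∀ D : Vec (Idx K n) → ℝ, IsProb D → err η (par (sec K s)) D u A < 1 / 2 - γ) →
        ∀ W : Submodule (ZMod 2) (Vec (Fin n)),
          err p (par s) (unif W) (G.coinW u) (G.boost A)
            < 1 / 2 - (1 - 2 * η) / ((1 - 2 * p) * K) * γ := by
  obtain ⟨K, r, G, C, D, hG⟩ := exists_good hp' hη hη' hp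
  refine ⟨K, r, G, hG.pos, hG.w, fun n m Ω _ u A γ s hu hA W => ?_⟩
  have h1 := hA _ (law_prob G s W hG.hD)
  rw [err_eq _ _ (law_prob G s W hG.hD) hu.2] at h1
  rw [err_eq _ _ (unif_prob W) (coinW_sum hG hu)]
  have h2 := corr_boost s W hG u A
  have hK : (0 : ℝ) < (1 - 2 * p) * K := mul_pos (by linarith) (by exact_mod_cast hG.pos)
  have h3 : (1 - 2 * η) / ((1 - 2 * p) * K) * (2 * γ)
      < corr p (par s) (unif W) (G.coinW u) (G.boost A) := by
    rw [div_mul_eq_mul_div, div_lt_iff₀ hK, mul_comm _ ((1 - 2 * p) * K), h2]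
    exact mul_lt_mul_of_pos_left (by linarith) (by linarith)
  linarith

end Pool.Agent.Results.MP_9f8ce8_lc.ParityBoost
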