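import Pool.Agent.MP_9f8ce8_lc.Rom.UA

namespace Pool.Agent.Results.MP_9f8ce8_lc.TrapdoorOracle

open Pool.Agent.MP_9f8ce8_lc Cap Rom

/-- Noise tolerance can be boosted without loss relative to a random trapdoor permutation oracle
when cost is counted in examples and oracle queries. For every learner A with q queries there is
one learner B with polynomially many examples and queries such that, for all but a 2 ^ (-Z)
fraction of the worlds, every target that A learns at rate η with mistake rate ε under all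
distributions is learned by B with mistake rate ε + 2 / Z at every rate up to 1 / 2 - 1 / Z under
all distributions. -/
theorem result (n l q m Z : ℕ) (η : ℝ) (hZ : 10 ≤ Z) (hn : n ≤ Z) (hm : m ≤ Z) (hl : 0 < l)
    (hq : (q + 1) * (2 * l + 1) ^ 2 ≤ Z) (h0 : 0 ≤ η) (h1 : η ≤ 1)
    (A : Sample n m → X n → (TQ l → Bool) → ℝ) (hA : ∀ S x, A S x ∈ Ach q) :
    ∃ B : Sample n (Z ^ 87 + Z ^ 95) → X n → (TQ l → Bool) → ℝ,
      (∀ S x, B S x ∈ Ach (Z ^ 335)) ∧
      {ω : World l | ∃ (c : X n → Bool) (ε : ℝ),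
        (∀ D : X n → ℝ, IsProb D → mis η c D (fun S x => A S x (tdp ω)) ≤ ε) ∧
        ∃ (η' : ℝ) (D : X n → ℝ), 0 ≤ η' ∧ η' ≤ 1 / 2 - 1 / (Z : ℝ) ∧ IsProb D ∧
          ε + 2 / (Z : ℝ) < mis η' c D fun S x => B S x (tdp ω)}.ncard * 2 ^ Z ≤
        Nat.card (World l) :=
  tdp_all2 (uAll (tCore (tLoc (tG (tG2 tG1) tG1)) tSpl tPh1 tPsi (tReal tSet)) uPool (uVal uSel)
    uGraft) (cBase cStab) (cDec cStab cCount (cCell cStab) (cDet cStab) (cPhi cFix) (cLuck cFix))
    (cSmall tSet cStab) n l q m Z η hZ hn hm hl hq h0 h1 A hA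

end Pool.Agent.Results.MP_9f8ce8_lc.TrapdoorOracle
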